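import Mathlib
import Pool.Agent.W484.CK.MurreMain

/-!
# The conjectures of Murre for products with almost all abelian varieties over finite fields

Let `g i` (`i` in a finite set `I`) be positive integers, `r` an integer smaller than all the `g i`
and `E` a number field.  For a prime power `q` let `S i` be the set of the characteristic
polynomials of Frobenius of the ordinary abelian varieties of dimension `g i` over the field with `q`
elements, or of all abelian varieties of dimension `g i`, or any set in between.  By Weil, Honda and
Tate its elements correspond to the isogeny classes, the first set contains `ordinaryWeilPolys q
(g i)`, and the second one is contained in `weilPolys q (g i)`.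

For all families `f i` in `S i` with the exception of a proportion `O (q ^ (-1 / 6) log q)`, the
constant depending only on `g` and `E`, the following holds for all `s > 0`, `Q = q ^ s`, all
abelian varieties `A` over the field with `Q` elements which are isogenous to products of powers of
abelian varieties coming from the field with `q` elements, with characteristic polynomials `f i`,
and **all** smooth projective varieties `Z` over the field with `Q` elements such that

* the eigenvalues of Frobenius on the cohomology of `Z` and their conjugates generate a group of rank
  at most `r` modulo the group of the numbers with a power in `E`;
* homologically trivial self-correspondences of degree zero of `A × Z` are nilpotent, for instance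
  the motive of `Z` is finite-dimensional in the sense of Kimura and O'Sullivan. This is known for
  all varieties dominated by products of curves, and for their products with `A`.

We find: **the conjectures of Murre hold for all motives `(A × Z, p)` if and only if they hold for
all motives `(Z, p)`**, and if this is the case they hold for all motives of all varieties `X`
dominated by `A × Z` (for which homologically trivial self-correspondences are nilpotent). Here `p`
is any idempotent self-correspondence, and the conjectures of Murre for the motive are: (A) it has a
Chow-Kunneth decomposition; (B) it can be chosen such that `CH^j` of the component of weight `i`
vanishes for `i > 2 j` and (D), at the same time, such that there are no homologically trivial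
cycles of codimension `j` in the component of weight `2 j`; (C) all Chow-Kunneth decompositions
define the same filtrations of the Chow groups. Both statements are equivalent to: rational and
homological equivalence coincide on `Z`, with rational coefficients.

For `r = 0` the assumption on the eigenvalues is: the eigenvalues of Frobenius and their conjugates
have powers in `E`.  If for instance `Z` is any given variety over the field with `q'` elements, one
can take for `E` the field generated by the eigenvalues of Frobenius and their conjugates, and
applies the theorem to the powers `q` of `q'`.

The framework (`TheoryData`, `IsChow`, `IsWeil`) is the one of helper492: the Chow groups `C` with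
their pull-backs, push-forwards and products, and a Weil cohomology theory `H` with coefficients in
an algebraically closed field `K`, on a class `𝒱` of smooth proper varieties over `k`.

The idea of the proof: by a sieve (helper521), which only uses the primes that split completely in
the Galois closure of `E` - these have positive density by the theorem of Chebotarev, formalized by
helper401 - almost all families are such that each pair `α`, `q / α` of roots can be exchanged by a
Galois automorphism which fixes all the other roots of all the `f i` and also all elements of `E`.
It follows that the generalized eigenvectors of Frobenius in the cohomology of `A × Z` for the
eigenvalues `Q ^ i` are sums of products of classes of products of divisors on `A` and of classes on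
`Z`. Let `p` be the projector given by the `D j` and dual classes, and `P` a polynomial killing all
the other eigenvalues and with `P (Q ^ i) = 1`. The correspondence `(1 - p) P (F)` is homologically
trivial, hence nilpotent; as it acts on `CH^i (A × Z)` as the idempotent `1 - p`, this idempotent is
zero. (The idea to play the eigenvalues of Frobenius off against nilpotence is due to Soule,
Geisser and Kahn.) This gives a Kunneth formula for the Chow groups of `A × Z`, and compares rational
and homological equivalence on `A × Z` and `Z`. The Chow-Kunneth decompositions are given by
polynomials in the Frobenius correspondence (using the Riemann hypothesis), as homologically trivial
self-correspondences are nilpotent; and the components of weight `i ≠ 2 j` of all Chow-Kunneth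
decompositions act as zero on cycles of codimension `j`, again by weights and nilpotence.
-/

set_option autoImplicit false

namespace Pool.Agent.Results.MP_38de51_ag.AlmostAllAbelianFactors

open Polynomial Pool.Agent.W521.Descent Pool.Agent.W521.Count Pool.Agent.W484.TB
  Pool.Agent.W484.CK

/-- `weilPolys q g` is the set of monic integral polynomials of degree `2 g` with constant term
`q ^ g` and all roots of absolute value `√q`; `ordinaryWeilPolys q g` is the subset of those
whose coefficient of index `g` is prime to `q`. -/
theorem result {I : Type} [Fintype I] (g : I → ℕ) (r : ℕ) (hr : ∀ i, r < g i)
    (E : IntermediateField ℚ ℂ) [FiniteDimensional ℚ E] :
    ∃ C : ℝ, ∀ q : ℕ, IsPrimePow q → ∀ S : I → Set ℤ[X],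
      (∀ i, ordinaryWeilPolys q (g i) ⊆ S i ∧ S i ⊆ weilPolys q (g i)) →
      (∀ i, (S i).Finite ∧ (S i).Nonempty) ∧
      ({f : I → ℤ[X] | (∀ i, f i ∈ S i) ∧ ¬ MurreForRankOver E q r f}.ncard : ℝ) ≤
        C * (Real.log q * (q : ℝ) ^ (-(1 / 6) : ℝ)) * ∏ i, ((S i).ncard : ℝ) :=
  count_of_goodU (splitPrimes E) (dense_splitPrimes E) g
    (fun i => (Nat.zero_le r).trans_lt (hr i)) (fun q f => MurreForRankOver E q r f)
    fun _ hq x hx => murreForRankOver_of_good g E hq.one_lt r hr x hx

end Pool.Agent.Results.MP_38de51_ag.AlmostAllAbelianFactors
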